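import Pool.Agent.H92.Conj

set_option autoImplicit false
open MeasureTheory Filter Topology

namespace Pool.Agent.Results.MP_9d555c_an.SmallBMO

/-- the singular integral `K f (x) = lim_{ε → 0+} ∫_{|x-y| > ε} Ω((x-y)/|x-y|) |x-y|^{-n} f(y) dy` -/
noncomputable def K {n : ℕ} (Ω f : EuclideanSpace ℝ (Fin n) → ℝ) (x : EuclideanSpace ℝ (Fin n)) : ℝ :=
  limUnder (𝓝[>] (0:ℝ)) fun ε =>
    ∫ y in {y | ε < ‖x - y‖}, Ω (‖x - y‖⁻¹ • (x - y)) / ‖x - y‖ ^ n * f y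

/-- `‖K - K_β‖ ≤ δ` on `L²`, tested on bounded compactly supported `f` with `e^β f` bounded -/
def ConjClose {n : ℕ} (Ω β : EuclideanSpace ℝ (Fin n) → ℝ) (δ : ℝ) : Prop :=
  ∀ f : EuclideanSpace ℝ (Fin n) → ℝ, HasCompactSupport f → MemLp f ⊤ volume →
    MemLp (fun y => Real.exp (β y) * f y) ⊤ volume →
    eLpNorm (fun x => K Ω f x - Real.exp (-β x) * K Ω (fun y => Real.exp (β y) * f y) x) 2 volume ≤
      ENNReal.ofReal δ * eLpNorm f 2 volume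

/-- the closed cube with centre `a` and side `2r` -/
def cube {n : ℕ} (a : EuclideanSpace ℝ (Fin n)) (r : ℝ) : Set (EuclideanSpace ℝ (Fin n)) :=
  {x | ∀ i, |x i - a i| ≤ r}

/-- the BMO seminorm -/
noncomputable def bmo {n : ℕ} (β : EuclideanSpace ℝ (Fin n) → ℝ) : ENNReal :=
  ⨆ (a : EuclideanSpace ℝ (Fin n)) (r : ℝ) (_ : 0 < r),
    ENNReal.ofReal (⨍ x in cube a r, |β x - ⨍ y in cube a r, β y|)

theorem result : ∀ (n : ℕ) (Ω : EuclideanSpace ℝ (Fin n) → ℝ), ContinuousOn Ω (Metric.sphere 0 1) →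
    (∃ θ ∈ Metric.sphere (0 : EuclideanSpace ℝ (Fin n)) 1, Ω θ ≠ 0) →
    ∃ C δ₀ : ℝ, 0 < δ₀ ∧ ∀ δ : ℝ, 0 ≤ δ → δ ≤ δ₀ → ∀ β : EuclideanSpace ℝ (Fin n) → ℝ,
      LocallyIntegrable β volume → ConjClose Ω β δ → bmo β ≤ ENNReal.ofReal (C * δ) := by
  intro n Ω h1 h2
  obtain ⟨C, δ0, a1, a2⟩ := Pool.Agent.H92.Conj.main h1 h2
  exact ⟨C, δ0, a1, fun δ b1 b2 β b3 b4 => iSup_le fun a => iSup₂_le fun r hr =>
    ENNReal.ofReal_le_ofReal (a2 δ b1 b2 β b3 b4 a r hr)⟩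

end Pool.Agent.Results.MP_9d555c_an.SmallBMO
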